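import Pool.Agent.helper53.DC.SpecA

/-! A11: the reflection crosses in the middle. -/

set_option autoImplicit false

namespace Pool.Agent.helper41.DC

open Pool.Agent.helper53.DC

theorem A11_sep {B W : Type} [Group W] {M : CoxeterMatrix B} (cs : CoxeterSystem M W) (r : Wall cs) (x : W) :
    (cw cs).Sep r x (r.1 * x) := by
  unfold WS.Sep
  rw [mem_cw, mem_cw, ← mul_assoc, r.2.mul_self, one_mul]
  have := r.2.length_mul_right_ne x
  omega

theorem A11 (h14 : A14_stmt) (h15 : A15_stmt) : A11_stmt := by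
  intro B W _ M cs r x
  haveI : Nonempty (Wall cs) := ⟨r⟩
  obtain ⟨X, w, hG, h0, hn⟩ := h14 cs x (r.1 * x)
  obtain ⟨hd, hs, -, hw, -⟩ := h15 cs _ X w hG
  obtain ⟨k, hk, hr⟩ := hw r (by rw [h0, hn]; exact A11_sep cs r x)
  have hst := hG.step k hk
  rw [← hr] at hst
  refine ⟨X k, ?_, ?_, ?_⟩
  · obtain ⟨i, hi⟩ := hG.adj k hk
    exact ⟨i, by rw [← hst, hi]⟩
  · have h1 := hd 0 k (Nat.zero_le _) hk.le
    have h2 := hd (k + 1) _ hk le_rfl
    rw [hn, hst, dd_left, dd_comm, ← h0, h1] at h2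
    rw [← h0, h1]
    rw [← h0] at hk
    unfold DD
    omega
  · intro h
    rw [hr, ← h0] at h
    have := (hs k 0 k hk (Nat.zero_le _) hk.le).1 h
    omega

end Pool.Agent.helper41.DC
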