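import Pool.Agent.helper53.DC.SpecA

/-! A2: commuting version of the gallery lift. -/

set_option autoImplicit false

namespace Pool.Agent.helper41.DC

open Pool.Agent.helper53.DC

theorem A2_comm {G : Type} [Group G] (f : ℕ → G) (hc : ∀ a b, f a * f b = f b * f a) (a n : ℕ) :
    f a * ((List.range n).map f).prod = ((List.range n).map f).prod * f a := by
  induction n with
  | zero => simp
  | succ n ih =>
    rw [List.range_succ, List.map_append, List.prod_append, ← mul_assoc, ih, mul_assoc, mul_assoc]
    simp [hc a n]

theorem A2_sq {G : Type} [Group G] (f : ℕ → G) (hc : ∀ a b, f a * f b = f b * f a) (hs : ∀ a, f a * f a = 1)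
    (n : ℕ) : ((List.range n).map f).prod * ((List.range n).map f).prod = 1 := by
  induction n with
  | zero => simp
  | succ n ih =>
    have h := A2_comm f hc n n
    rw [List.range_succ, List.map_append, List.prod_append]
    simp only [List.map_cons, List.map_nil, List.prod_cons, List.prod_nil, mul_one]
    rw [mul_assoc, ← mul_assoc (f n), h, mul_assoc, hs, mul_one, ih]

theorem A2_prod {G : Type} [Group G] (f : ℕ → G) (m : ℕ) (hp : ∀ k, f (m + k) = f k)
    (hc : ∀ a b, f a * f b = f b * f a) (hs : ∀ a, f a * f a = 1) :
    ((List.range (2 * m)).map f).prod = 1 := by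
  rw [two_mul, List.range_add, List.map_append, List.prod_append, List.map_map]
  have : (List.range m).map (f ∘ fun x => m + x) = (List.range m).map f :=
    List.map_congr_left fun k _ => hp k
  rw [this]
  exact A2_sq f hc hs m

theorem A2 (h1 : A1_stmt) : A2_stmt := by
  intro B W G _ _ M cs lab hsq hcomm
  classical
  set lab' : W → G := fun r => if h : cs.IsReflection r then lab ⟨r, h⟩ else 1 with hlab
  have hsq' : ∀ r, lab' r * lab' r = 1 := by
    intro r
    by_cases h : cs.IsReflection r
    · simp only [hlab, dif_pos h]; exact hsq _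
    · simp only [hlab, dif_neg h, mul_one]
  obtain ⟨c, hc1, hc⟩ := h1 cs lab' (fun r _ => hsq' r) (by
    intro x i j
    by_cases hm : M i j = 0
    · rw [hm]; simp
    · refine A2_prod (fun k => lab' (x * (cs.simple i * cs.simple j) ^ k * cs.simple i * x⁻¹)) (M i j) ?_ ?_ ?_
      · intro k
        have : (cs.simple i * cs.simple j) ^ (M i j + k) = (cs.simple i * cs.simple j) ^ k := by
          rw [pow_add, cs.simple_mul_simple_pow, one_mul]
        simp only [this]
      · intro a b
        by_cases ha : cs.IsReflection (x * (cs.simple i * cs.simple j) ^ a * cs.simple i * x⁻¹)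
        · by_cases hb : cs.IsReflection (x * (cs.simple i * cs.simple j) ^ b * cs.simple i * x⁻¹)
          · simp only [hlab, dif_pos ha, dif_pos hb]
            exact hcomm _ _ ⟨x, i, j, a, b, hm, rfl, rfl⟩
          · simp only [hlab, dif_neg hb, mul_one, one_mul]
        · simp only [hlab, dif_neg ha, mul_one, one_mul]
      · intro a
        exact hsq' _)
  refine ⟨c, hc1, fun x i => ?_⟩
  rw [hc]
  have h : cs.IsReflection (x * cs.simple i * x⁻¹) := ⟨x, i, rfl⟩
  simp only [hlab, dif_pos h]
  rfl

end Pool.Agent.helper41.DC
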