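import Pool.Agent.helper53.DC.SpecK

/-! K11: cofiniteness of `XK`. -/

set_option autoImplicit false

namespace Pool.Agent.helper41.DC

open Pool.Agent.helper53.DC

section

variable {B W : Type} [Group W] {M : CoxeterMatrix B} (cs : CoxeterSystem M W)

theorem K11_mem {H : Subgroup W} {w w' u : Wall cs} (hu : (TG cs H w w').Reachable w u) :
    ∃ h ∈ H, h • w = u ∨ h • w' = u := by
  obtain ⟨p⟩ := hu.symm
  cases p with
  | nil => exact ⟨1, H.one_mem, Or.inl (one_smul _ _)⟩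
  | cons h p =>
    obtain ⟨-, g, hg, h1⟩ := h
    rcases h1 with ⟨h2, -⟩ | ⟨h2, -⟩
    · exact ⟨g, hg, Or.inl h2⟩
    · exact ⟨g, hg, Or.inr h2⟩

theorem K11_adj {H : Subgroup W} {w w' : Wall cs} (hne : w ≠ w') {h : W} (hh : h ∈ H) :
    (TG cs H w w').Adj (h • w) (h • w') :=
  ⟨fun h1 => hne (by
    have := congrArg (fun t => h⁻¹ • t) h1
    simpa [inv_smul_smul] using this), h, hh, Or.inl ⟨rfl, rfl⟩⟩

theorem K11_adj1 {H : Subgroup W} {w w' : Wall cs} (hne : w ≠ w') : (TG cs H w w').Adj w w' := by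
  have := K11_adj cs (H := H) hne H.one_mem
  rwa [one_smul, one_smul] at this

/-- the wall `w` or `w'` -/
def K11_v (w w' : Wall cs) (b : Bool) : Wall cs := if b then w else w'

theorem K11_KK {H : Subgroup W} {w w' u : Wall cs} (hne : w ≠ w') (hu : (TG cs H w w').Reachable w u)
    {h : W} (hh : h ∈ H) {b : Bool} (he : h • K11_v cs w w' b = u) : h ∈ KK cs H w w' := by
  refine ⟨hh, ?_⟩
  cases b with
  | true => rw [show u = h • w from he.symm] at hu; exact hu
  | false =>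
    rw [show u = h • w' from he.symm] at hu
    exact hu.trans (K11_adj cs hne hh).symm.reachable

theorem K11_stab {H : Subgroup W} {w w' : Wall cs} (hne : w ≠ w')
    {h : W} (hh : h ∈ H) {b : Bool} (he : h • K11_v cs w w' b = K11_v cs w w' b) : h ∈ KK cs H w w' := by
  refine K11_KK cs hne ?_ hh he
  cases b with
  | true => exact SimpleGraph.Reachable.refl _
  | false => exact (K11_adj1 cs hne).reachable

end

theorem K11 : K11_stmt := by
  intro B W _ _ M cs H w w' hH hne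
  classical
  haveI : Finite (W ⧸ H) := Subgroup.finite_quotient_of_finiteIndex
  set P : Bool × B × (W ⧸ H) → W → Prop := fun t x =>
    (K11_v cs w w' t.1).1 * x = x * cs.simple t.2.1 ∧ ((x⁻¹ : W) : W ⧸ H) = t.2.2 with hP
  set rep : Bool × B × (W ⧸ H) → W := fun t => if h : ∃ x, P t x then h.choose else 1 with hrep
  have hrs : ∀ t x, P t x → P t (rep t) := by
    intro t x hx
    have h : ∃ x, P t x := ⟨x, hx⟩
    simp only [hrep, dif_pos h]
    exact h.choose_spec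
  refine ⟨Set.range rep, Set.finite_range rep, ?_⟩
  rintro x ⟨u, hu, i, hi⟩
  obtain ⟨h, hh, hu'⟩ := K11_mem cs hu
  obtain ⟨b, hb⟩ : ∃ b, h • K11_v cs w w' b = u := by
    rcases hu' with h1 | h1
    · exact ⟨true, h1⟩
    · exact ⟨false, h1⟩
  have hhK := K11_KK cs hne hu hh hb
  have hy : (K11_v cs w w' b).1 * (h⁻¹ * x) = (h⁻¹ * x) * cs.simple i := by
    rw [← hb, smul_wall_val] at hi
    rw [mul_assoc h⁻¹, ← hi]
    group
  have hPy : P (b, i, (((h⁻¹ * x)⁻¹ : W) : W ⧸ H)) (h⁻¹ * x) := ⟨hy, rfl⟩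
  obtain ⟨hf1, hf2⟩ := hrs _ _ hPy
  set f := rep (b, i, (((h⁻¹ * x)⁻¹ : W) : W ⧸ H)) with hf
  simp only at hf1 hf2
  rw [QuotientGroup.eq, inv_inv] at hf2
  have hg : (h⁻¹ * x) * f⁻¹ ∈ H := by
    have := H.inv_mem hf2
    rwa [mul_inv_rev, inv_inv] at this
  have hgs : ((h⁻¹ * x) * f⁻¹) • K11_v cs w w' b = K11_v cs w w' b := by
    refine Subtype.ext ?_
    rw [smul_wall_val]
    have e1 : f⁻¹ * (K11_v cs w w' b).1 = cs.simple i * f⁻¹ := by
      rw [inv_mul_eq_iff_eq_mul, ← mul_assoc, ← hf1, mul_assoc, mul_inv_cancel, mul_one]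
    rw [mul_assoc (h⁻¹ * x), e1, ← mul_assoc, ← hy]
    group
  refine ⟨h * ((h⁻¹ * x) * f⁻¹), (KK cs H w w').mul_mem hhK (K11_stab cs hne hg hgs), f, ⟨_, rfl⟩, ?_⟩
  group

end Pool.Agent.helper41.DC
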