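import Pool.Agent.helper53.DC.SpecR

/-! R3: splitting off a dihedral tail. -/

set_option autoImplicit false

namespace Pool.Agent.helper41.DC

open Pool.Agent.helper53.DC CoxeterSystem

variable {B W : Type} [Group W] {M : CoxeterMatrix B} (cs : CoxeterSystem M W)

theorem R3_cancel (w x : W) (c : B) : w * x = (w * cs.simple c) * (cs.simple c * x) := by
  rw [mul_assoc, ← mul_assoc (cs.simple c), cs.simple_mul_simple_self, one_mul]

theorem R3_last (v : W) (a b : B) (n : ℕ) (hn : 0 < n) :
    v * cs.wordProd (alternatingWord a b n) * cs.simple b = v * cs.wordProd (alternatingWord b a (n - 1)) := by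
  obtain ⟨n, rfl⟩ : ∃ k, n = k + 1 := ⟨n - 1, by omega⟩
  rw [alternatingWord_succ, List.concat_eq_append, cs.wordProd_append, cs.wordProd_singleton, mul_assoc, mul_assoc,
    cs.simple_mul_simple_self, mul_one]
  rfl

theorem R3_len (v : W) (a b : B) (n : ℕ) : cs.length (v * cs.wordProd (alternatingWord a b n)) ≤ cs.length v + n := by
  refine (cs.length_mul_le _ _).trans ?_
  have := cs.length_wordProd_le (alternatingWord a b n)
  rw [length_alternatingWord] at this
  omega

theorem R3 : R3_stmt := by
  intro B W _ M cs w i j hij hi hj
  classical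
  have hex : ∃ k, ∃ (v : W) (n : ℕ) (a b : B), ((a = i ∧ b = j) ∨ (a = j ∧ b = i)) ∧
      w = v * cs.wordProd (alternatingWord a b n) ∧ cs.length w = cs.length v + n ∧ cs.length v = k :=
    ⟨cs.length w, w, 0, i, j, Or.inl ⟨rfl, rfl⟩, by simp [alternatingWord], by simp, rfl⟩
  obtain ⟨v, n, a, b, hab, hw, hl, hk⟩ := Nat.find_spec hex
  have hmin : ∀ (v' : W) (n' : ℕ) (a' b' : B), ((a' = i ∧ b' = j) ∨ (a' = j ∧ b' = i)) →
      w = v' * cs.wordProd (alternatingWord a' b' n') → cs.length w = cs.length v' + n' →
      cs.length v ≤ cs.length v' := by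
    intro v' n' a' b' h1 h2 h3
    rw [hk]
    exact Nat.find_min' hex ⟨v', n', a', b', h1, h2, h3, rfl⟩
  have hne : a ≠ b := by rcases hab with ⟨rfl, rfl⟩ | ⟨rfl, rfl⟩; exacts [hij, hij.symm]
  have key : ∀ c, c = a ∨ c = b → cs.length v < cs.length (v * cs.simple c) := by
    intro c hc
    by_contra hlt
    have h1 : cs.length (v * cs.simple c) + 1 = cs.length v := by
      rcases cs.length_mul_simple v c with h | h <;> omega
    by_cases hn : n = 0
    · subst hn
      have h2 : w = (v * cs.simple c) * cs.wordProd (alternatingWord (if c = a then b else a) c 1) := by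
        rw [hw]
        simp only [alternatingWord, List.concat_eq_append, List.nil_append, cs.wordProd_nil,
          cs.wordProd_singleton, mul_one, mul_assoc, cs.simple_mul_simple_self]
      have h3 := hmin _ 1 (if c = a then b else a) c (by
        rcases hc with rfl | rfl
        · rw [if_pos rfl]
          rcases hab with ⟨h, h'⟩ | ⟨h, h'⟩
          · exact Or.inr ⟨h', h⟩
          · exact Or.inl ⟨h', h⟩
        · rw [if_neg hne.symm]
          exact hab) h2 (by omega)
      omega
    · by_cases hf : c = if Even n then b else a
      · have h2 : w = (v * cs.simple c) * cs.wordProd (alternatingWord a b (n + 1)) := by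
          rw [hw, alternatingWord_succ', cs.wordProd_cons, ← hf]
          exact R3_cancel cs _ _ _
        have h3 := hmin _ (n + 1) a b hab h2 (by omega)
        omega
      · obtain ⟨n, rfl⟩ : ∃ k, n = k + 1 := ⟨n - 1, by omega⟩
        have hf' : c = if Even n then b else a := by
          by_cases he : Even n
          · rw [if_pos he]
            rw [if_neg (by rw [Nat.even_add_one]; exact not_not.2 he)] at hf
            exact hc.resolve_left hf
          · rw [if_neg he]
            rw [if_pos (by rw [Nat.even_add_one]; exact he)] at hf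
            exact hc.resolve_right hf
        have h2 : w = (v * cs.simple c) * cs.wordProd (alternatingWord a b n) := by
          rw [hw, alternatingWord_succ', cs.wordProd_cons, ← hf', mul_assoc]
        have h3 := R3_len cs (v * cs.simple c) a b n
        rw [← h2] at h3
        omega
  have hn : 0 < n := by
    by_contra hn
    have hn : n = 0 := by omega
    subst hn
    have h1 : w = v := by rw [hw]; simp [alternatingWord]
    have h2 := key j (by rcases hab with ⟨rfl, rfl⟩ | ⟨rfl, rfl⟩ <;> simp)
    rw [← h1] at h2
    omega
  have hab' : a = i ∧ b = j := by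
    rcases hab with h | ⟨rfl, rfl⟩
    · exact h
    · exfalso
      have h1 := R3_last cs v a b n hn
      rw [← hw] at h1
      have h2 := R3_len cs v b a (n - 1)
      rw [← h1] at h2
      omega
  obtain ⟨rfl, rfl⟩ := hab'
  refine ⟨v, n, hn, hw, hl, key a (Or.inl rfl), key b (Or.inr rfl), ?_⟩
  by_contra hcon
  push Not at hcon
  obtain ⟨h1, h2⟩ := hcon
  rcases h1.lt_or_eq with h1 | h1
  · have h3 := cs.not_isReduced_alternatingWord a b h2 h1
    unfold CoxeterSystem.IsReduced at h3
    have h4 := cs.length_wordProd_le (alternatingWord a b n)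
    rw [length_alternatingWord] at h3 h4
    have h5 := cs.length_mul_le v (cs.wordProd (alternatingWord a b n))
    rw [← hw] at h5
    omega
  · have h3 := cs.wordProd_braidWord_eq a b
    rw [braidWord, braidWord, ← M.symmetric a b, h1] at h3
    have h4 := R3_last cs v b a n hn
    rw [← h3, ← hw] at h4
    have h5 := R3_len cs v a b (n - 1)
    rw [← h4] at h5
    omega

end Pool.Agent.helper41.DC
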