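import Pool.Agent.helper53.DC.SpecV

/-! V6d: the finite set with functions. -/

set_option autoImplicit false

namespace Pool.Agent.helper41.DC

open Pool.Agent.helper53.DC

section

variable {B W : Type} [Group W] {M : CoxeterMatrix B} (cs : CoxeterSystem M W)

theorem V6d_mem {H : Subgroup W} {w w' u : Wall cs} (hu : (TG cs H w w').Reachable w u) :
    ∃ h ∈ H, h • w = u ∨ h • w' = u := by
  obtain ⟨p⟩ := hu.symm
  cases p with
  | nil => exact ⟨1, H.one_mem, Or.inl (one_smul _ _)⟩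
  | cons h p =>
    obtain ⟨-, g, hg, h1⟩ := h
    rcases h1 with ⟨h2, -⟩ | ⟨h2, -⟩
    · exact ⟨g, hg, Or.inl h2⟩
    · exact ⟨g, hg, Or.inr h2⟩

theorem V6d_lab {H : Subgroup W} {w w' a a' : Wall cs} (ha : (TG cs H w w').Adj a a') :
    (lab cs H a = lab cs H w ∧ lab cs H a' = lab cs H w') ∨ (lab cs H a = lab cs H w' ∧ lab cs H a' = lab cs H w) := by
  obtain ⟨-, g, hg, h1⟩ := ha
  rcases h1 with ⟨h2, h3⟩ | ⟨h2, h3⟩
  · exact Or.inl ⟨((lab_eq cs).2 ⟨g, hg, h2⟩).symm, ((lab_eq cs).2 ⟨g, hg, h3⟩).symm⟩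
  · exact Or.inr ⟨((lab_eq cs).2 ⟨g, hg, h2⟩).symm, ((lab_eq cs).2 ⟨g, hg, h3⟩).symm⟩

theorem V6d_N {N : Subgroup W} (hN : N.Normal) {n : W} (hn : n ∈ N) (a : Wall cs) : (n • a).1 * a.1 ∈ N := by
  rw [smul_wall_val]
  have h1 : n * a.1 * n⁻¹ * a.1 = n * (a.1 * n⁻¹ * a.1⁻¹) := by
    rw [a.2.inv]; group
  rw [h1]
  exact N.mul_mem hn (hN.conj_mem _ (N.inv_mem hn) _)

end

open scoped Pointwise in
theorem V6d (h6b : V6b_stmt) (h6c : V6c_stmt) (hK6 : K6_stmt) (hV2 : V2_stmt) : V6d_stmt := by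
  intro B W _ _ M cs H m g0 w w' hD hcr hG0 hm lam hl0 hl1 R
  obtain ⟨hac, -⟩ := hK6 cs H m g0 w w' hD hcr hG0 hm
  obtain ⟨N, hNn, hNf, hNH, hN⟩ := h6b cs H w w' hD.normal hD.fin hac R
  obtain ⟨hc1, hc2, hc3⟩ := h6c cs H N w w' hNn hNH (hD.a1 w w' hcr)
  haveI : Finite (W ⧸ N) := Subgroup.finite_quotient_of_finiteIndex
  obtain ⟨A, iA, iM, f, hf1, hf2⟩ := hV2 (V := Wall cs) (E := Set (W ⧸ N)) (K := KK cs H w w')
    (TG cs H w w') (ec cs H N w w') w lam hac hc1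
    (fun k u v h => TG_adj_smul cs k.2.1 h)
    (fun k u v _ => hc2 k.1 k.2.1 u v)
    (fun k => k.2.2) hl0 hl1
  refine ⟨A, iA, iM, f, fun k u α hu => hf1 k u α hu, ?_⟩
  intro u u' hu hu' hvis
  obtain ⟨p, hp, hpl⟩ := (hu.symm.trans hu').exists_path_of_dist
  rw [← hpl]
  refine hf2 u u' hu p hp ?_
  have hkey : ∀ d ∈ p.darts, ∀ d' ∈ p.darts,
      ec cs H N w w' d.fst d.snd = ec cs H N w w' d'.fst d'.snd → d.edge = d'.edge := by
    intro d hd d' hd' he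
    have hV := hN u u' (V6d_mem cs hu) hvis p hp
    have s1 := p.dart_fst_mem_support_of_mem_darts hd
    have s2 := p.dart_snd_mem_support_of_mem_darts hd
    have s3 := p.dart_fst_mem_support_of_mem_darts hd'
    have s4 := p.dart_snd_mem_support_of_mem_darts hd'
    have heq : ∀ a ∈ p.support, ∀ b ∈ p.support, (∃ n ∈ N, n • a = b) → a = b := by
      rintro a ha b hb ⟨n, hn, rfl⟩
      by_contra hne
      exact hV a ha (n • a) hb hne (V6d_N cs hNn hn a)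
    have hcase : lab cs H d.fst = lab cs H d'.fst ∨ lab cs H d.fst = lab cs H d'.snd := by
      rcases V6d_lab cs d.adj with h1 | h1 <;> rcases V6d_lab cs d'.adj with h2 | h2
      · exact Or.inl (h1.1.trans h2.1.symm)
      · exact Or.inr (h1.1.trans h2.2.symm)
      · exact Or.inr (h1.1.trans h2.2.symm)
      · exact Or.inl (h1.1.trans h2.1.symm)
    rcases hcase with hl | hl
    · obtain ⟨n, hn, e1, e2⟩ := hc3 d.fst d.snd d'.fst d'.snd d.adj d'.adj he hl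
      have q1 := heq _ s1 _ s3 ⟨n, hn, e1⟩
      have q2 := heq _ s2 _ s4 ⟨n, hn, e2⟩
      rw [SimpleGraph.dart_edge_eq_iff]
      exact Or.inl (SimpleGraph.Dart.ext _ _ (Prod.ext q1 q2))
    · rw [hc1 d'.fst d'.snd] at he
      obtain ⟨n, hn, e1, e2⟩ := hc3 d.fst d.snd d'.snd d'.fst d.adj d'.adj.symm he hl
      have q1 := heq _ s1 _ s4 ⟨n, hn, e1⟩
      have q2 := heq _ s2 _ s3 ⟨n, hn, e2⟩
      rw [SimpleGraph.dart_edge_eq_iff]
      exact Or.inr (SimpleGraph.Dart.ext _ _ (Prod.ext q1 q2))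
  have hedges : (p.darts.map SimpleGraph.Dart.edge).Nodup := hp.isTrail.edges_nodup
  refine List.Nodup.map_on ?_ hedges.of_map
  intro d hd d' hd' he
  exact List.inj_on_of_nodup_map hedges hd hd' (hkey d hd d' hd' he)

end Pool.Agent.helper41.DC
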