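import Pool.Agent.helper53.DC.SpecA

/-! W4: Mirsky for walls. -/

set_option autoImplicit false

namespace Pool.Agent.helper41.DC

open Pool.Agent.helper53.DC

theorem W4 (h3 : W3_stmt) : W4_stmt := by
  intro X Wl S hS u u' D k F hF hE hk
  classical
  obtain ⟨-, -, -, hd, -, -, hg, -, -, -, -⟩ := h3 S hS
  induction k generalizing F with
  | zero =>
    have h0 : 0 < F.card := by omega
    obtain ⟨v, hv⟩ := Finset.card_pos.1 h0
    exact ⟨fun _ => v, ⟨fun i _ => hF v hv, fun i j h1 h2 => by omega⟩, fun i _ => hv⟩
  | succ k ih =>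
    set F1 : Finset Wl := F.filter (fun v => ∀ w ∈ F, ¬ S.Btw w u v) with hF1
    set F2 : Finset Wl := F.filter (fun v => ¬ ∀ w ∈ F, ¬ S.Btw w u v) with hF2
    have hc1 : F1.card ≤ D := by
      refine hE F1 (Finset.filter_subset _ _) ?_
      intro v hv v' hv' hne
      rw [hF1, Finset.mem_filter] at hv hv'
      by_contra hcr
      rcases hg v v' u u' (hF v hv.1) (hF v' hv'.1) hne hcr with h | h
      · exact hv'.2 v hv.1 h.1
      · exact hv.2 v' hv'.1 h.1
    have hc2 : F1.card + F2.card = F.card := Finset.card_filter_add_card_filter_not _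
    have hsub : F2 ⊆ F := Finset.filter_subset _ _
    obtain ⟨v, hv, hvF⟩ := ih F2 (fun v hv => hF v (hsub hv)) (fun E hE' => hE E (hE'.trans hsub)) (by
      rw [Nat.succ_mul] at hk; omega)
    have h0 := hvF 0 (by omega)
    rw [hF2, Finset.mem_filter] at h0
    have h01 := h0.2
    push Not at h01
    obtain ⟨w, hwF, hw⟩ := h01
    have hwj : ∀ j < k + 1, S.Btw w u (v j) := by
      intro j hj
      rcases Nat.eq_zero_or_pos j with rfl | hj0
      · exact hw
      · exact (hd w (v 0) u (v j) hw (hv.2 0 j hj0 hj).1).1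
    refine ⟨fun i => if i = 0 then w else v (i - 1), ⟨?_, ?_⟩, ?_⟩
    · intro i hi
      by_cases h : i = 0
      · simp only [h, if_true]; exact hF w hwF
      · simp only [h, if_false]; exact hv.1 (i - 1) (by omega)
    · intro i j hij hj
      have hj0 : j ≠ 0 := by omega
      by_cases h : i = 0
      · simp only [h, hj0, if_true, if_false]
        exact ⟨hwj (j - 1) (by omega), (hd w (v (j - 1)) u u' (hwj (j - 1) (by omega)) (hv.1 (j - 1) (by omega))).2⟩
      · simp only [h, hj0, if_false]
        exact hv.2 (i - 1) (j - 1) (by omega) (by omega)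
    · intro i hi
      by_cases h : i = 0
      · simp only [h, if_true]; exact hwF
      · simp only [h, if_false]; exact hsub (hvF (i - 1) (by omega))

end Pool.Agent.helper41.DC
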