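import Pool.Agent.helper58.DC.Spec1

set_option autoImplicit false

namespace Pool.Agent.helper41.DC

open Pool.Agent.helper58.DC

theorem PO_norm {G : Type} [Group G] (H P : Subgroup G) :
    H ≤ Subgroup.normalizer (P : Set G) ↔ ∀ h ∈ H, ∀ x ∈ P, h * x * h⁻¹ ∈ P := by
  constructor
  · intro h g hg x hx
    have := h hg
    rw [Subgroup.mem_normalizer_iff] at this
    exact (this x).1 hx
  · intro h g hg
    rw [Subgroup.mem_normalizer_iff]
    intro x
    refine ⟨fun hx => h g hg x hx, fun hx => ?_⟩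
    have := h g⁻¹ (H.inv_mem hg) _ hx
    simpa [mul_assoc] using this

theorem PO_pgroup {G T : Type} [Group G] [Fintype T] (p : ℕ) (P : T → Subgroup G)
    (h : ∀ t, IsPGroup p (P t)) :
    IsPGroup p (Subgroup.pi Set.univ P : Subgroup (T → G)) := by
  rintro ⟨x, hx⟩
  rw [Subgroup.mem_pi] at hx
  choose k hk using fun t => h t ⟨x t, hx t (Set.mem_univ t)⟩
  refine ⟨∑ t, k t, ?_⟩
  apply Subtype.ext
  funext t
  have h1 : x t ^ p ^ k t = 1 := by
    have := congrArg Subtype.val (hk t)
    simpa using this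
  have h2 : k t ≤ ∑ t, k t := Finset.single_le_sum (f := k) (fun _ _ => Nat.zero_le _) (Finset.mem_univ t)
  obtain ⟨m, hm⟩ := Nat.exists_eq_add_of_le h2
  change x t ^ p ^ (∑ t, k t) = 1
  rw [hm, pow_add, pow_mul, h1, one_pow]

theorem PO : PO_stmt := by
  classical
  intro G T _ _ _ p H P
  have hsingle : ∀ (K : T → Subgroup G) (t : T) (x : G), x ∈ K t →
      (Pi.mulSingle t x : T → G) ∈ Subgroup.pi Set.univ K := by
    intro K t x hx
    rw [Subgroup.mem_pi]
    intro s _
    by_cases hs : s = t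
    · subst hs
      simpa using hx
    · rw [Pi.mulSingle_eq_of_ne hs]
      exact (K s).one_mem
  have hsingle' : ∀ (K : T → Subgroup G) (t : T) (x : G),
      (Pi.mulSingle t x : T → G) ∈ Subgroup.pi Set.univ K → x ∈ K t := by
    intro K t x hx
    rw [Subgroup.mem_pi] at hx
    simpa using hx t (Set.mem_univ t)
  constructor
  · rintro ⟨⟨h1, h2, h3⟩, h4⟩ t
    rw [PO_norm] at h3
    refine ⟨⟨?_, ?_, ?_⟩, ?_⟩
    · intro x hx
      exact hsingle' H t x (h1 (hsingle P t x hx))
    · rintro ⟨x, hx⟩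
      obtain ⟨k, hk⟩ := h2 ⟨_, hsingle P t x hx⟩
      refine ⟨k, Subtype.ext ?_⟩
      have h5 := congrArg Subtype.val hk
      have h6 := congrFun h5 t
      simpa using h6
    · rw [PO_norm]
      intro h hh x hx
      have h5 := h3 _ (hsingle H t h hh) _ (hsingle P t x hx)
      rw [← Pi.mulSingle_mul, ← Pi.mulSingle_inv, ← Pi.mulSingle_mul] at h5
      exact hsingle' P t _ h5
    · rintro Q ⟨hQ1, hQ2, hQ3⟩ x hx
      rw [PO_norm] at hQ3
      have h5 : Q.map (MonoidHom.mulSingle (fun _ : T => G) t) ≤ Subgroup.pi Set.univ P := by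
        apply h4
        refine ⟨?_, hQ2.map _, ?_⟩
        · rintro _ ⟨y, hy, rfl⟩
          exact hsingle H t y (hQ1 hy)
        · rw [PO_norm]
          rintro y hy _ ⟨q, hq, rfl⟩
          rw [Subgroup.mem_pi] at hy
          refine ⟨y t * q * (y t)⁻¹, hQ3 _ (hy t (Set.mem_univ t)) _ hq, ?_⟩
          funext s
          by_cases hs : s = t
          · subst hs
            simp [MonoidHom.mulSingle_apply]
          · simp [MonoidHom.mulSingle_apply, Pi.mulSingle_eq_of_ne hs]
      exact hsingle' P t x (h5 ⟨x, hx, rfl⟩)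
  · intro h
    refine ⟨⟨?_, PO_pgroup p P fun t => (h t).1.2.1, ?_⟩, ?_⟩
    · intro x hx
      rw [Subgroup.mem_pi] at hx ⊢
      exact fun t ht => (h t).1.1 (hx t ht)
    · rw [PO_norm]
      intro y hy x hx
      rw [Subgroup.mem_pi] at hx hy ⊢
      intro t ht
      have h1 := (h t).1.2.2
      rw [PO_norm] at h1
      exact h1 _ (hy t ht) _ (hx t ht)
    · rintro Q ⟨hQ1, hQ2, hQ3⟩ x hx
      rw [PO_norm] at hQ3
      rw [Subgroup.mem_pi]
      intro t _
      have h5 : Q.map (Pi.evalMonoidHom (fun _ : T => G) t) ≤ P t := by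
        apply (h t).2
        refine ⟨?_, hQ2.map _, ?_⟩
        · rintro _ ⟨y, hy, rfl⟩
          have := hQ1 hy
          rw [Subgroup.mem_pi] at this
          exact this t (Set.mem_univ t)
        · rw [PO_norm]
          rintro y hy _ ⟨q, hq, rfl⟩
          refine ⟨Pi.mulSingle t y * q * (Pi.mulSingle t y)⁻¹, hQ3 _ (hsingle H t y hy) _ hq, ?_⟩
          simp
      exact h5 ⟨x, hx, rfl⟩

end Pool.Agent.helper41.DC
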